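import Pool.Agent.TH855.Ball.Rat

set_option autoImplicit false

namespace Pool.Agent.Results.MP_eddcad_an.AllHomotopic

open Pool.TH855.BallMap

/-- Any two proper rational maps from the ball of `ℂ^n` to the ball of `ℂ^N`, both of degree at
most `e`, are homotopic through proper maps, and the homotopy runs through proper rational maps
of degree at most `e`. -/
theorem result :
    ∀ (n N : ℕ), 0 < n → ∀ f g : (Fin n → ℂ) → (Fin N → ℂ),
      IsProperBall n N f → IsProperBall n N g →
      ∀ e : ℕ, RatDeg n N e f → RatDeg n N e g → Homotopic n N (RatDeg n N e) f g :=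
  fun _ _ hn _ _ hf hg _ hr hr' => rational_homotopic hn hf hg hr hr'

end Pool.Agent.Results.MP_eddcad_an.AllHomotopic
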