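import Pool.Agent.TH855.Ball.Rat
import Pool.Agent.TH855.Ball.Poly

set_option autoImplicit false

namespace Pool.Agent.Results.MP_eddcad_an.DegreeRange

open Pool.TH855.BallMap

/-- Q1 has a positive answer for every proper rational map of degree `d` if `n = 1`, or
`d (n - 1) ≤ N - 1`, or `n = 2` and `d ≤ 2 N - 3`; the homotopy can be taken through proper
rational maps of degree at most `d`. -/
theorem result :
    ∀ (n N : ℕ), 0 < n → ∀ f : (Fin n → ℂ) → (Fin N → ℂ), IsProperBall n N f →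
      ∀ d : ℕ, IsLeast {e : ℕ | RatDeg n N e f} d →
      (n = 1 ∨ d * (n - 1) + 1 ≤ N ∨ (n = 2 ∧ d + 3 ≤ 2 * N)) →
      ∃ p : Fin N → MvPolynomial (Fin n) ℂ,
        (∀ j, (p j).totalDegree ≤ d) ∧ (∃ j, (p j).totalDegree = d) ∧
        Homotopic n N (RatDeg n N d) f (fun z j => MvPolynomial.eval z (p j)) := by
  intro n N hn f hf d hd hrange
  have hr : RatDeg n N d f := hd.1
  have hd1 := one_le_of_proper hn hf hr
  have hN := dim_pos hn hf
  obtain ⟨m, rfl⟩ : ∃ m, n = m + 1 := ⟨n - 1, by omega⟩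
  have hex : ∃ g : Fin N → MvPolynomial (Fin (m + 1)) ℂ, (∀ j, (g j).totalDegree ≤ d) ∧
      (∃ j, (g j).totalDegree = d) ∧
      IsProperBall (m + 1) N (fun z j => MvPolynomial.eval z (g j)) := by
    rcases hrange with h | h | ⟨h, h'⟩
    · have hm : m = 0 := by omega
      exact whitney hd1 (by rw [hm]; omega)
    · rw [Nat.add_sub_cancel] at h
      exact whitney hd1 h
    · have hm : m = 1 := by omega
      subst hm
      exact sharp_two hd1 h'
  obtain ⟨p, hp1, hp2, hp3⟩ := hex
  refine ⟨p, hp1, hp2, rational_homotopic (by omega) hf hp3 hr ?_⟩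
  exact ⟨p, 1, hp1, by simp, fun z _ => ⟨by simp, fun j => by simp⟩⟩

end Pool.Agent.Results.MP_eddcad_an.DegreeRange
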